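import Pool.Agent.LE.StmtsQF

/-!
# Row WFB of squad LQF (MP_1906c1_mp)
-/

set_option autoImplicit false
set_option linter.unusedSectionVars false

open scoped BigOperators Matrix

noncomputable section

namespace Pool.Agent.LE.QF.H62

open Pool.Agent.LE.QD

variable {X : Type} [Fintype X] [DecidableEq X]

/-! ### quadratic forms -/

theorem dl_mulVec (K : Matrix X X ℝ) (f : X → ℝ) (a : X) :
    (Dl K *ᵥ f) a = ∑ b, K a b * (f a - f b) := by
  unfold Dl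
  rw [Matrix.sub_mulVec, Pi.sub_apply, Matrix.mulVec_diagonal]
  simp only [Matrix.mulVec, dotProduct, mul_sub, Finset.sum_sub_distrib, Finset.sum_mul]

theorem qf_dl (K : Matrix X X ℝ) (hK : ∀ a b, K a b = K b a) (f : X → ℝ) :
    2 * qf (Dl K) f = ∑ a, ∑ b, K a b * (f a - f b) ^ 2 := by
  have h1 : qf (Dl K) f = ∑ a, ∑ b, K a b * (f a * (f a - f b)) := by
    unfold qf
    refine Finset.sum_congr rfl fun a _ => ?_
    rw [dl_mulVec, Finset.mul_sum]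
    refine Finset.sum_congr rfl fun b _ => ?_
    ring
  have h2 : qf (Dl K) f = ∑ a, ∑ b, K a b * (f b * (f b - f a)) := by
    rw [h1, Finset.sum_comm]
    refine Finset.sum_congr rfl fun a _ => Finset.sum_congr rfl fun b _ => ?_
    rw [hK a b]
  have h3 : 2 * qf (Dl K) f = (∑ a, ∑ b, K a b * (f a * (f a - f b))) +
      ∑ a, ∑ b, K a b * (f b * (f b - f a)) := by
    rw [← h1, ← h2]; ring
  rw [h3, ← Finset.sum_add_distrib]
  refine Finset.sum_congr rfl fun a _ => ?_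
  rw [← Finset.sum_add_distrib]
  refine Finset.sum_congr rfl fun b _ => ?_
  ring

theorem qf_add (A B : Matrix X X ℝ) (f : X → ℝ) : qf (A + B) f = qf A f + qf B f := by
  unfold qf
  rw [← Finset.sum_add_distrib]
  refine Finset.sum_congr rfl fun a _ => ?_
  rw [Matrix.add_mulVec, Pi.add_apply]; ring

theorem qf_sub (A B : Matrix X X ℝ) (f : X → ℝ) : qf (A - B) f = qf A f - qf B f := by
  unfold qf
  rw [← Finset.sum_sub_distrib]
  refine Finset.sum_congr rfl fun a _ => ?_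
  rw [Matrix.sub_mulVec, Pi.sub_apply]; ring

theorem qf_smul (t : ℝ) (A : Matrix X X ℝ) (f : X → ℝ) : qf (t • A) f = t * qf A f := by
  unfold qf
  rw [Finset.mul_sum]
  refine Finset.sum_congr rfl fun a _ => ?_
  rw [Matrix.smul_mulVec, Pi.smul_apply, smul_eq_mul]; ring

theorem dl_add (A B : Matrix X X ℝ) : Dl (A + B) = Dl A + Dl B := by
  unfold Dl
  ext a b
  simp only [Matrix.sub_apply, Matrix.add_apply, Finset.sum_add_distrib, Matrix.diagonal_apply]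
  split_ifs <;> ring

/-- The variance identity. -/
theorem variance (p g : X → ℝ) :
    ∑ a, ∑ b, p a * p b * (g a - g b) ^ 2 =
      2 * ((∑ a, p a) * ∑ a, p a * g a ^ 2) - 2 * (∑ a, p a * g a) ^ 2 := by
  have h1 : ∑ a, ∑ b, p a * p b * (g a - g b) ^ 2 =
      (∑ a, ∑ b, (p a * g a ^ 2) * p b) + (∑ a, ∑ b, p a * (p b * g b ^ 2)) -
        2 * ∑ a, ∑ b, (p a * g a) * (p b * g b) := by
    rw [Finset.mul_sum, ← Finset.sum_add_distrib, ← Finset.sum_sub_distrib]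
    refine Finset.sum_congr rfl fun a _ => ?_
    rw [Finset.mul_sum, ← Finset.sum_add_distrib, ← Finset.sum_sub_distrib]
    refine Finset.sum_congr rfl fun b _ => ?_
    ring
  rw [h1, ← Finset.sum_mul_sum, ← Finset.sum_mul_sum, ← Finset.sum_mul_sum]
  ring

theorem qf_dl_sq (K : Matrix X X ℝ) (hK : ∀ a b, K a b = K b a) (f : X → ℝ) :
    qf (Dl (K * K)) f = (∑ c, (∑ b, K c b) * ∑ a, K c a * (f c - f a) ^ 2) -
      ∑ c, (Dl K *ᵥ f) c ^ 2 := by
  have hs : ∀ a b, (K * K) a b = (K * K) b a := by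
    intro a b
    rw [Matrix.mul_apply, Matrix.mul_apply]
    refine Finset.sum_congr rfl fun c _ => ?_
    rw [hK a c, hK c b]; ring
  have h1 : 2 * qf (Dl (K * K)) f =
      ∑ c, ∑ a, ∑ b, K c a * K c b * ((f a - f c) - (f b - f c)) ^ 2 := by
    rw [qf_dl _ hs]
    have e1 : ∀ a b, (K * K) a b * (f a - f b) ^ 2 =
        ∑ c, K c a * K c b * ((f a - f c) - (f b - f c)) ^ 2 := by
      intro a b
      rw [Matrix.mul_apply, Finset.sum_mul]
      refine Finset.sum_congr rfl fun c _ => ?_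
      rw [hK a c]; ring
    simp only [e1]
    rw [Finset.sum_congr rfl fun a _ => Finset.sum_comm, Finset.sum_comm]
  have h2 : ∀ c, ∑ a, ∑ b, K c a * K c b * ((f a - f c) - (f b - f c)) ^ 2 =
      2 * ((∑ b, K c b) * ∑ a, K c a * (f c - f a) ^ 2) - 2 * (Dl K *ᵥ f) c ^ 2 := by
    intro c
    rw [variance (fun a => K c a) (fun a => f a - f c), dl_mulVec]
    have e2 : ∑ a, K c a * (f a - f c) = -∑ b, K c b * (f c - f b) := by
      rw [← Finset.sum_neg_distrib]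
      refine Finset.sum_congr rfl fun b _ => ?_
      ring
    have e3 : ∑ a, K c a * (f a - f c) ^ 2 = ∑ a, K c a * (f c - f a) ^ 2 := by
      refine Finset.sum_congr rfl fun b _ => ?_
      ring
    rw [e2, e3]; ring
  simp only [h2, Finset.sum_sub_distrib, ← Finset.mul_sum] at h1
  linarith

/-- Cauchy-Schwarz for a nonnegative form. -/
theorem cs_qf (S : Matrix X X ℝ) (hS : ∀ a b, S a b = S b a) (h0 : ∀ h, 0 ≤ qf S h)
    (x : X → ℝ) (a : X) : (S *ᵥ x) a ^ 2 ≤ S a a * qf S x := by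
  have h1 : ∀ t : ℝ, 0 ≤ S a a * (t * t) + (2 * (S *ᵥ x) a) * t + qf S x := by
    intro t
    obtain ⟨e, he⟩ : ∃ e : X → ℝ, e = Pi.single a 1 := ⟨_, rfl⟩
    have h2 := h0 (x + t • e)
    have h3 : qf S (x + t • e) = S a a * (t * t) + (2 * (S *ᵥ x) a) * t + qf S x := by
      have e1 : ∀ b, (S *ᵥ (x + t • e)) b = (S *ᵥ x) b + t * S b a := by
        intro b
        rw [Matrix.mulVec_add, Matrix.mulVec_smul, Pi.add_apply, Pi.smul_apply, he,
          Matrix.mulVec_single_one]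
        rfl
      have e2 : ∀ b, (x + t • e) b * ((S *ᵥ x) b + t * S b a) =
          x b * (S *ᵥ x) b + t * (x b * S b a) + t * (e b * ((S *ᵥ x) b + t * S b a)) := by
        intro b
        rw [Pi.add_apply, Pi.smul_apply, smul_eq_mul]; ring
      have e3 : ∑ b, x b * S b a = (S *ᵥ x) a := by
        simp only [Matrix.mulVec, dotProduct]
        refine Finset.sum_congr rfl fun b _ => ?_
        rw [hS b a]; ring
      have e4 : ∑ b, e b * ((S *ᵥ x) b + t * S b a) = (S *ᵥ x) a + t * S a a := by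
        rw [Finset.sum_eq_single a]
        · rw [he, Pi.single_eq_same]; ring
        · intro b _ hb
          rw [he, Pi.single_eq_of_ne hb]; ring
        · intro h; exact absurd (Finset.mem_univ a) h
      unfold qf
      simp only [e1, e2, Finset.sum_add_distrib, ← Finset.mul_sum]
      rw [e3, e4]; ring
    rw [h3] at h2
    exact h2
  have h4 := discrim_le_zero h1
  rw [discrim] at h4
  nlinarith

/-! ### the commutator -/

/-- `[f, G]` -/
def Fm (G : Matrix X X ℂ) (f : X → ℝ) (a b : X) : ℂ := ((f a - f b : ℝ) : ℂ) * G a b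

/-- `β` -/
def be (G : Matrix X X ℂ) (f : X → ℝ) (a c : X) : ℂ :=
  ∑ b, (starRingEnd ℂ) (Fm G f a b) * G b c

theorem norm_Fm (G : Matrix X X ℂ) (f : X → ℝ) (a b : X) :
    ‖Fm G f a b‖ ^ 2 = KK G a b * (f a - f b) ^ 2 := by
  unfold Fm KK
  rw [norm_mul, mul_pow, Complex.norm_real, Real.norm_eq_abs, sq_abs]; ring

theorem dK_mulVec (G : Matrix X X ℂ) (hs : ∀ a b, G a b = G b a) (f : X → ℝ) (a c : X) :
    (Dl (dK G c) *ᵥ f) a = -(2 * (G a c * be G f a c).re) := by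
  rw [dl_mulVec]
  unfold dK be
  have h1 : ∀ b, -(2 * ((starRingEnd ℂ) (G a b) * G a c * G c b).re) * (f a - f b) =
      -(2 * (G a c * ((starRingEnd ℂ) (Fm G f a b) * G b c)).re) := by
    intro b
    have e : G a c * ((starRingEnd ℂ) (Fm G f a b) * G b c) =
        ((f a - f b : ℝ) : ℂ) * ((starRingEnd ℂ) (G a b) * G a c * G c b) := by
      unfold Fm
      rw [map_mul, Complex.conj_ofReal, hs b c]; ring
    rw [e, Complex.re_ofReal_mul]; ring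
  simp only [h1]
  rw [Finset.mul_sum, Complex.re_sum, Finset.mul_sum, Finset.sum_neg_distrib]

section Bounds

variable {G : Matrix X X ℂ} {κ τ : ℝ}

theorem be_row (hs : ∀ a b, G a b = G b a)
    (hop : ∀ v : X → ℂ, n2 (G *ᵥ v) ≤ n2 v / κ ^ 2) (f : X → ℝ) (a : X) :
    ∑ c, ‖be G f a c‖ ^ 2 ≤ (∑ b, ‖Fm G f a b‖ ^ 2) / κ ^ 2 := by
  have h1 := hop (fun b => (starRingEnd ℂ) (Fm G f a b))
  have h2 : ∀ c, (G *ᵥ (fun b => (starRingEnd ℂ) (Fm G f a b))) c = be G f a c := by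
    intro c
    unfold be
    simp only [Matrix.mulVec, dotProduct]
    refine Finset.sum_congr rfl fun b _ => ?_
    rw [hs c b]; ring
  unfold n2 at h1
  simp only [h2, RCLike.norm_conj] at h1
  exact h1

theorem be_pt (f : X → ℝ) (a c : X) :
    ‖be G f a c‖ ^ 2 ≤ (∑ b, ‖Fm G f a b‖ ^ 2) * ∑ b, ‖G b c‖ ^ 2 := by
  have h1 : ‖be G f a c‖ ≤ ∑ b, ‖Fm G f a b‖ * ‖G b c‖ := by
    unfold be
    refine (norm_sum_le _ _).trans (le_of_eq ?_)
    refine Finset.sum_congr rfl fun b _ => ?_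
    rw [norm_mul, RCLike.norm_conj]
  calc ‖be G f a c‖ ^ 2 ≤ (∑ b, ‖Fm G f a b‖ * ‖G b c‖) ^ 2 :=
        pow_le_pow_left₀ (norm_nonneg _) h1 2
    _ ≤ _ := Finset.sum_mul_sq_le_sq_mul_sq _ _ _

/-- `∑ |v| |G μ v| ≤ (s / κ) |v|²` -/
theorem mu_row (hκ : 0 < κ) (hop : ∀ v : X → ℂ, n2 (G *ᵥ v) ≤ n2 v / κ ^ 2) (μ v : X → ℂ) (s : ℝ)
    (hs0 : 0 ≤ s) (hμ : ∀ a, ‖μ a‖ ≤ s) :
    ∑ b, ‖v b‖ * ‖(G *ᵥ (fun c => μ c * v c)) b‖ ≤ s / κ * ∑ b, ‖v b‖ ^ 2 := by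
  have h1 := hop (fun c => μ c * v c)
  unfold n2 at h1
  have h2 : ∑ c, ‖μ c * v c‖ ^ 2 ≤ s ^ 2 * ∑ b, ‖v b‖ ^ 2 := by
    rw [Finset.mul_sum]
    refine Finset.sum_le_sum fun c _ => ?_
    rw [norm_mul, mul_pow]
    exact mul_le_mul_of_nonneg_right (pow_le_pow_left₀ (norm_nonneg _) (hμ c) 2) (sq_nonneg _)
  have hn : 0 ≤ ∑ b, ‖v b‖ ^ 2 := Finset.sum_nonneg fun b _ => sq_nonneg _
  have h3 : ∑ b, ‖(G *ᵥ (fun c => μ c * v c)) b‖ ^ 2 ≤ (s / κ) ^ 2 * ∑ b, ‖v b‖ ^ 2 := by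
    refine h1.trans ?_
    rw [div_pow, div_mul_eq_mul_div]
    exact div_le_div_of_nonneg_right h2 (by positivity)
  have h4 : (∑ b, ‖v b‖ * ‖(G *ᵥ (fun c => μ c * v c)) b‖) ^ 2 ≤
      (s / κ * ∑ b, ‖v b‖ ^ 2) ^ 2 := by
    calc (∑ b, ‖v b‖ * ‖(G *ᵥ (fun c => μ c * v c)) b‖) ^ 2
        ≤ (∑ b, ‖v b‖ ^ 2) * ∑ b, ‖(G *ᵥ (fun c => μ c * v c)) b‖ ^ 2 :=
          Finset.sum_mul_sq_le_sq_mul_sq _ _ _
      _ ≤ (∑ b, ‖v b‖ ^ 2) * ((s / κ) ^ 2 * ∑ b, ‖v b‖ ^ 2) :=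
          mul_le_mul_of_nonneg_left h3 hn
      _ = (s / κ * ∑ b, ‖v b‖ ^ 2) ^ 2 := by ring
  exact le_of_sq_le_sq h4 (mul_nonneg (div_nonneg hs0 hκ.le) hn)

theorem EK_symm (hs : ∀ a b, G a b = G b a) (μ : X → ℂ) (a b : X) : EK G μ a b = EK G μ b a := by
  have h1 : ∀ a b, GD G μ a b = ∑ c, G a c * μ c * G c b := by
    intro a b
    unfold GD
    rw [Matrix.mul_apply]
    refine Finset.sum_congr rfl fun c _ => ?_
    rw [Matrix.mul_diagonal]
  have h2 : GD G μ a b = GD G μ b a := by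
    rw [h1, h1]
    refine Finset.sum_congr rfl fun c _ => ?_
    rw [hs a c, hs c b]; ring
  unfold EK
  rw [h2, hs a b]

theorem EK_bound (hκ : 0 < κ) (hs : ∀ a b, G a b = G b a)
    (hop : ∀ v : X → ℂ, n2 (G *ᵥ v) ≤ n2 v / κ ^ 2) (μ : X → ℂ) (s : ℝ) (hs0 : 0 ≤ s)
    (hμ : ∀ a, ‖μ a‖ ≤ s) (f : X → ℝ) :
    -(2 * (s / κ) * ∑ a, ∑ b, ‖Fm G f a b‖ ^ 2) ≤ qf (Dl (EK G μ)) f := by
  have h1 : ∀ a b, GD G μ a b = ∑ c, G a c * μ c * G c b := by
    intro a b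
    unfold GD
    rw [Matrix.mul_apply]
    refine Finset.sum_congr rfl fun c _ => ?_
    rw [Matrix.mul_diagonal]
  set P : X → X → ℂ := fun a b => (G *ᵥ (fun c => μ c * Fm G f a c)) b with hP
  set R : X → X → ℂ := fun a b => (G *ᵥ (fun c => μ c * Fm G f c b)) a with hR
  have h2 : ∀ a b, ((f a - f b : ℝ) : ℂ) * GD G μ a b = P a b + R a b := by
    intro a b
    rw [h1, hP, hR]
    simp only [Matrix.mulVec, dotProduct]
    rw [Finset.mul_sum, ← Finset.sum_add_distrib]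
    refine Finset.sum_congr rfl fun c _ => ?_
    unfold Fm
    rw [hs b c]
    push_cast
    ring
  have h3 : ∀ a b, EK G μ a b * (f a - f b) ^ 2 =
      2 * ((starRingEnd ℂ) (Fm G f a b) * (P a b + R a b)).re := by
    intro a b
    rw [← h2]
    have e : (starRingEnd ℂ) (Fm G f a b) * (((f a - f b : ℝ) : ℂ) * GD G μ a b) =
        (((f a - f b) ^ 2 : ℝ) : ℂ) * ((starRingEnd ℂ) (G a b) * GD G μ a b) := by
      unfold Fm
      rw [map_mul, Complex.conj_ofReal]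
      push_cast
      ring
    rw [e, Complex.re_ofReal_mul]
    unfold EK
    ring
  have h4 := qf_dl (EK G μ) (EK_symm hs μ) f
  simp only [h3] at h4
  have h5 : qf (Dl (EK G μ)) f =
      ∑ a, ∑ b, ((starRingEnd ℂ) (Fm G f a b) * (P a b + R a b)).re := by
    simp only [← Finset.mul_sum] at h4
    linarith
  have h6 : ∀ a b, -(‖Fm G f a b‖ * ‖P a b‖) - ‖Fm G f a b‖ * ‖R a b‖ ≤
      ((starRingEnd ℂ) (Fm G f a b) * (P a b + R a b)).re := by
    intro a b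
    have e1 := (abs_le.1 (Complex.abs_re_le_norm
      ((starRingEnd ℂ) (Fm G f a b) * (P a b + R a b)))).1
    have e2 : ‖(starRingEnd ℂ) (Fm G f a b) * (P a b + R a b)‖ ≤
        ‖Fm G f a b‖ * ‖P a b‖ + ‖Fm G f a b‖ * ‖R a b‖ := by
      rw [norm_mul, RCLike.norm_conj, ← mul_add]
      exact mul_le_mul_of_nonneg_left (norm_add_le _ _) (norm_nonneg _)
    linarith
  have h7 : ∑ a, ∑ b, ‖Fm G f a b‖ * ‖P a b‖ ≤ s / κ * ∑ a, ∑ b, ‖Fm G f a b‖ ^ 2 := by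
    rw [Finset.mul_sum]
    exact Finset.sum_le_sum fun a _ => mu_row hκ hop μ (fun c => Fm G f a c) s hs0 hμ
  have h8 : ∑ a, ∑ b, ‖Fm G f a b‖ * ‖R a b‖ ≤ s / κ * ∑ a, ∑ b, ‖Fm G f a b‖ ^ 2 := by
    rw [Finset.sum_comm, Finset.sum_comm (f := fun a b => ‖Fm G f a b‖ ^ 2), Finset.mul_sum]
    exact Finset.sum_le_sum fun b _ => mu_row hκ hop μ (fun c => Fm G f c b) s hs0 hμ
  rw [h5]
  calc -(2 * (s / κ) * ∑ a, ∑ b, ‖Fm G f a b‖ ^ 2)
      ≤ -(∑ a, ∑ b, ‖Fm G f a b‖ * ‖P a b‖) - ∑ a, ∑ b, ‖Fm G f a b‖ * ‖R a b‖ := by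
        linarith
    _ = ∑ a, ∑ b, (-(‖Fm G f a b‖ * ‖P a b‖) - ‖Fm G f a b‖ * ‖R a b‖) := by
        simp only [Finset.sum_sub_distrib, Finset.sum_neg_distrib]
    _ ≤ _ := Finset.sum_le_sum fun a _ => Finset.sum_le_sum fun b _ => h6 a b

end Bounds

theorem wfb (nrb : NrbStmt) : WfbStmt := by
  intro C₀ hC₀
  refine ⟨16 * C₀ ^ 3, ?_, ?_⟩
  · nlinarith [pow_le_pow_left₀ (by norm_num : (0 : ℝ) ≤ 1) hC₀ 3]
  intro X _ _ G μ 𝒩 κ τ δ N hG f
  obtain ⟨C₁, _, hn⟩ := nrb C₀ hC₀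
  have hop : ∀ v : X → ℂ, n2 (G *ᵥ v) ≤ n2 v / κ ^ 2 := fun v =>
    ((hn X G μ 𝒩 κ τ δ N hG).1 v).1
  obtain ⟨hκ, hκ1, hτ, hκτ, hτκ⟩ := hG.hκ
  obtain ⟨hδ, hδ2, hN⟩ := hG.hδ
  have hs := hG.hs
  have hC0 : 0 < C₀ := by linarith
  have hKs : ∀ a b, KK G a b = KK G b a := by
    intro a b
    unfold KK
    rw [hs a b]
  have hK0 : ∀ a b, 0 ≤ KK G a b := fun a b => sq_nonneg _
  set D : ℝ := ∑ a, ∑ b, ‖Fm G f a b‖ ^ 2 with hD
  set Q : ℝ := qf (Dl (KK G)) f with hQ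
  have hD0 : 0 ≤ D := Finset.sum_nonneg fun a _ => Finset.sum_nonneg fun b _ => sq_nonneg _
  have hDQ : D = 2 * Q := by
    rw [hQ, qf_dl _ hKs, hD]
    exact Finset.sum_congr rfl fun a _ => Finset.sum_congr rfl fun b _ => norm_Fm G f a b
  have hQ0 : 0 ≤ Q := by linarith
  -- row sums
  have hk1 : ∀ a, (1 - C₀ * δ) / τ ≤ ∑ b, KK G a b := by
    intro a
    rw [div_le_iff₀ hτ]
    have := (abs_le.1 (hG.hk a)).1
    unfold KK
    linarith
  have hk2 : ∀ a, ∑ b, KK G a b ≤ 2 / τ := by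
    intro a
    rw [le_div_iff₀ hτ]
    have := (abs_le.1 (hG.hk a)).2
    unfold KK
    linarith
  have hqt : qf (τ • Dl (KK G)) f = τ * Q := qf_smul _ _ _
  have hmv : ∀ (A : Matrix X X ℝ) (a : X), ((τ • A) *ᵥ f) a = τ * (A *ᵥ f) a := by
    intro A a
    rw [Matrix.smul_mulVec, Pi.smul_apply, smul_eq_mul]
  have hC1 : C₀ ^ 2 ≤ C₀ ^ 3 := pow_le_pow_right₀ hC₀ (by norm_num)
  have hC2 : C₀ ≤ C₀ ^ 3 := le_self_pow₀ hC₀ (by norm_num)
  have hbr : ∀ a, ∑ c, ‖be G f a c‖ ^ 2 ≤ (∑ b, ‖Fm G f a b‖ ^ 2) / κ ^ 2 := be_row hs hop f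
  have hx : ∀ a c, ((τ • Dl (dK G c)) *ᵥ f) a = -(2 * τ * (G a c * be G f a c).re) := by
    intro a c
    rw [hmv, dK_mulVec G hs]
    ring
  refine ⟨?_, ?_, ?_⟩
  · -- part (a)
    set T : ℝ := ∑ c, (Dl (KK G) *ᵥ f) c ^ 2 with hT
    have e1 : ∑ a, ((τ • Dl (KK G)) *ᵥ f) a ^ 2 = τ ^ 2 * T := by
      rw [hT, Finset.mul_sum]
      refine Finset.sum_congr rfl fun a _ => ?_
      rw [hmv]; ring
    have e2 : qf (τ • Dl (KK G * KK G + EK G μ) - Dl (KK G)) f =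
        τ * (qf (Dl (KK G * KK G)) f + qf (Dl (EK G μ)) f) - Q := by
      rw [qf_sub, qf_smul, dl_add, qf_add]
    have e3 : (1 - C₀ * δ) / τ * D - T ≤ qf (Dl (KK G * KK G)) f := by
      rw [qf_dl_sq _ hKs, hD, Finset.mul_sum]
      refine sub_le_sub_right (Finset.sum_le_sum fun c _ => ?_) _
      have e : ∑ b, ‖Fm G f c b‖ ^ 2 = ∑ a, KK G c a * (f c - f a) ^ 2 :=
        Finset.sum_congr rfl fun b _ => norm_Fm G f c b
      rw [e]
      exact mul_le_mul_of_nonneg_right (hk1 c)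
        (Finset.sum_nonneg fun b _ => mul_nonneg (hK0 _ _) (sq_nonneg _))
    have e4 : -(2 * (C₀ * δ / κ) * D) ≤ qf (Dl (EK G μ)) f :=
      EK_bound hκ hs hop μ (C₀ * δ) (mul_nonneg hC0.le hδ) hG.hμ f
    have e5 : τ * ((1 - C₀ * δ) / τ * D - T - 2 * (C₀ * δ / κ) * D) ≤
        τ * (qf (Dl (KK G * KK G)) f + qf (Dl (EK G μ)) f) :=
      mul_le_mul_of_nonneg_left (by linarith) hτ.le
    have e6 : τ * ((1 - C₀ * δ) / τ * D - T - 2 * (C₀ * δ / κ) * D) =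
        (1 - C₀ * δ) * D - τ * T - 2 * C₀ * δ * (τ / κ) * D := by
      field_simp
    have e7 : τ / κ ≤ C₀ := by rw [div_le_iff₀ hκ]; exact hτκ
    have e8 : 2 * C₀ * δ * (τ / κ) * D ≤ 2 * C₀ * δ * C₀ * D := by
      refine mul_le_mul_of_nonneg_right (mul_le_mul_of_nonneg_left e7 ?_) hD0
      positivity
    have e9 : ((1 - 16 * C₀ ^ 3 * δ) * (τ * Q) - τ ^ 2 * T) / τ =
        (1 - 16 * C₀ ^ 3 * δ) * Q - τ * T := by
      field_simp
    rw [e1, e2, hqt, e9]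
    have e10 : C₀ * (δ * Q) ≤ C₀ ^ 3 * (δ * Q) :=
      mul_le_mul_of_nonneg_right hC2 (mul_nonneg hδ hQ0)
    have e11 : C₀ ^ 2 * (δ * Q) ≤ C₀ ^ 3 * (δ * Q) :=
      mul_le_mul_of_nonneg_right hC1 (mul_nonneg hδ hQ0)
    have e12 : 0 ≤ C₀ ^ 3 * (δ * Q) := by positivity
    rw [hDQ] at e5 e6 e8
    nlinarith
  · -- part (b)
    have e1 : ∀ c a, ((τ • Dl (dK G c)) *ᵥ f) a ^ 2 ≤
        4 * τ ^ 2 * (‖G a c‖ ^ 2 * ‖be G f a c‖ ^ 2) := by
      intro c a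
      rw [hx]
      have h1 : (G a c * be G f a c).re ^ 2 ≤ ‖G a c‖ ^ 2 * ‖be G f a c‖ ^ 2 := by
        rw [← mul_pow, ← norm_mul]
        exact sq_le_sq' (abs_le.1 (Complex.abs_re_le_norm _)).1
          (abs_le.1 (Complex.abs_re_le_norm _)).2
      have h2 : 4 * τ ^ 2 * (G a c * be G f a c).re ^ 2 ≤
          4 * τ ^ 2 * (‖G a c‖ ^ 2 * ‖be G f a c‖ ^ 2) :=
        mul_le_mul_of_nonneg_left h1 (by positivity)
      calc (-(2 * τ * (G a c * be G f a c).re)) ^ 2 =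
          4 * τ ^ 2 * (G a c * be G f a c).re ^ 2 := by ring
        _ ≤ _ := h2
    have e2 : ∀ a, ∑ c, ‖G a c‖ ^ 2 * ‖be G f a c‖ ^ 2 ≤
        (N * (C₀ ^ 2 * (2 / τ)) + (C₀ * δ) ^ 2 / κ ^ 2) * ∑ b, ‖Fm G f a b‖ ^ 2 := by
      intro a
      set Da : ℝ := ∑ b, ‖Fm G f a b‖ ^ 2 with hDa
      have hDa0 : 0 ≤ Da := Finset.sum_nonneg fun b _ => sq_nonneg _
      have h1 : ∀ c, ‖G a c‖ ^ 2 * ‖be G f a c‖ ^ 2 ≤
          (if c ∈ 𝒩 a then C₀ ^ 2 * (2 / τ) * Da else 0) + (C₀ * δ) ^ 2 * ‖be G f a c‖ ^ 2 := by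
        intro c
        by_cases hc : c ∈ 𝒩 a
        · rw [if_pos hc]
          have h2 : ‖be G f a c‖ ^ 2 ≤ 2 / τ * Da := by
            refine (be_pt f a c).trans ?_
            rw [mul_comm]
            refine mul_le_mul_of_nonneg_right ?_ hDa0
            have h3 := hk2 c
            unfold KK at h3
            refine le_trans (le_of_eq ?_) h3
            exact Finset.sum_congr rfl fun b _ => by rw [hs b c]
          have h4 : ‖G a c‖ ^ 2 ≤ C₀ ^ 2 := pow_le_pow_left₀ (norm_nonneg _) (hG.hG a c) 2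
          have h5 : 0 ≤ (C₀ * δ) ^ 2 * ‖be G f a c‖ ^ 2 := by positivity
          have h6 : ‖G a c‖ ^ 2 * ‖be G f a c‖ ^ 2 ≤ C₀ ^ 2 * (2 / τ * Da) :=
            mul_le_mul h4 h2 (sq_nonneg _) (sq_nonneg _)
          linarith
        · rw [if_neg hc, zero_add]
          refine mul_le_mul_of_nonneg_right ?_ (sq_nonneg _)
          exact pow_le_pow_left₀ (norm_nonneg _) ((hG.hn a c).2 hc) 2
      refine (Finset.sum_le_sum fun c _ => h1 c).trans ?_
      rw [Finset.sum_add_distrib, ← Finset.mul_sum, Finset.sum_ite_mem, Finset.univ_inter,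
        Finset.sum_const, nsmul_eq_mul]
      have h7 : ((𝒩 a).card : ℝ) * (C₀ ^ 2 * (2 / τ) * Da) ≤ N * (C₀ ^ 2 * (2 / τ) * Da) :=
        mul_le_mul_of_nonneg_right (hG.hN a) (by positivity)
      have h8 : (C₀ * δ) ^ 2 * ∑ c, ‖be G f a c‖ ^ 2 ≤ (C₀ * δ) ^ 2 * (Da / κ ^ 2) :=
        mul_le_mul_of_nonneg_left (hbr a) (sq_nonneg _)
      calc _ ≤ N * (C₀ ^ 2 * (2 / τ) * Da) + (C₀ * δ) ^ 2 * (Da / κ ^ 2) := add_le_add h7 h8
        _ = _ := by ring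
    have e3 : ∑ c, ∑ a, ((τ • Dl (dK G c)) *ᵥ f) a ^ 2 ≤
        4 * τ ^ 2 * ((N * (C₀ ^ 2 * (2 / τ)) + (C₀ * δ) ^ 2 / κ ^ 2) * D) := by
      rw [Finset.sum_comm]
      calc ∑ a, ∑ c, ((τ • Dl (dK G c)) *ᵥ f) a ^ 2
          ≤ ∑ a, 4 * τ ^ 2 * ((N * (C₀ ^ 2 * (2 / τ)) + (C₀ * δ) ^ 2 / κ ^ 2) *
              ∑ b, ‖Fm G f a b‖ ^ 2) := by
            refine Finset.sum_le_sum fun a _ => ?_
            refine (Finset.sum_le_sum fun c _ => e1 c a).trans ?_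
            rw [← Finset.mul_sum]
            exact mul_le_mul_of_nonneg_left (e2 a) (by positivity)
        _ = _ := by rw [← Finset.mul_sum, ← Finset.mul_sum]
    refine e3.trans ?_
    rw [hqt, hDQ]
    have e4 : 4 * τ ^ 2 * ((N * (C₀ ^ 2 * (2 / τ)) + (C₀ * δ) ^ 2 / κ ^ 2) * (2 * Q)) =
        16 * C₀ ^ 2 * N * (τ * Q) + 8 * C₀ ^ 2 * (τ / κ) * (δ ^ 2 / κ * (τ * Q)) := by
      field_simp
      ring
    have e5 : τ / κ ≤ C₀ := by rw [div_le_iff₀ hκ]; exact hτκ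
    have e6 : 8 * C₀ ^ 2 * (τ / κ) * (δ ^ 2 / κ * (τ * Q)) ≤
        8 * C₀ ^ 2 * C₀ * (δ ^ 2 / κ * (τ * Q)) := by
      refine mul_le_mul_of_nonneg_right (mul_le_mul_of_nonneg_left e5 ?_) ?_ <;> positivity
    have hN0 : 0 ≤ N := by linarith
    have e7 : C₀ ^ 2 * (N * (τ * Q)) ≤ C₀ ^ 3 * (N * (τ * Q)) :=
      mul_le_mul_of_nonneg_right hC1 (by positivity)
    have e8 : 0 ≤ C₀ ^ 3 * (δ ^ 2 / κ * (τ * Q)) := by positivity
    rw [e4]
    nlinarith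
  · -- part (c)
    intro S s hS h0 hSs
    have hs0 : ∀ _c : X, 0 ≤ s := by
      intro c
      have := h0 (Pi.single c 1)
      have h12 : qf S (Pi.single c 1) = S c c := by
        unfold qf
        rw [Finset.sum_eq_single c]
        · rw [Pi.single_eq_same, Matrix.mulVec_single_one]
          simp only [one_mul]
          rfl
        · intro b _ hb
          rw [Pi.single_eq_of_ne hb, zero_mul]
        · intro h; exact absurd (Finset.mem_univ c) h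
      rw [h12] at this
      exact this.trans (hSs c)
    have e1 : ∀ c, qf S ((τ • Dl (dK G c)) *ᵥ f) ≤ 8 * τ * s * ∑ a, ‖be G f a c‖ ^ 2 := by
      intro c
      set x : X → ℝ := (τ • Dl (dK G c)) *ᵥ f with hxd
      set q : ℝ := qf S x with hq
      set B : ℝ := ∑ a, ‖be G f a c‖ ^ 2 with hB
      have hB0 : 0 ≤ B := Finset.sum_nonneg fun a _ => sq_nonneg _
      have hq0 : 0 ≤ q := h0 x
      have hh : ∀ a, (S *ᵥ x) a ^ 2 ≤ s * q := fun a =>
        (cs_qf S hS h0 x a).trans (mul_le_mul_of_nonneg_right (hSs a) hq0)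
      have h1 : |q| ≤ ∑ a, |x a| * |(S *ᵥ x) a| := by
        rw [hq]
        unfold qf
        refine (Finset.abs_sum_le_sum_abs _ _).trans (le_of_eq ?_)
        exact Finset.sum_congr rfl fun a _ => abs_mul _ _
      have h2 : ∀ a, |x a| * |(S *ᵥ x) a| ≤
          (2 * τ) * ((‖G a c‖ * |(S *ᵥ x) a|) * ‖be G f a c‖) := by
        intro a
        have h3 : |x a| ≤ 2 * τ * (‖G a c‖ * ‖be G f a c‖) := by
          rw [hxd, hx, abs_neg, abs_mul, abs_of_pos (by positivity : (0 : ℝ) < 2 * τ), ← norm_mul]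
          exact mul_le_mul_of_nonneg_left (Complex.abs_re_le_norm _) (by positivity)
        calc |x a| * |(S *ᵥ x) a| ≤ 2 * τ * (‖G a c‖ * ‖be G f a c‖) * |(S *ᵥ x) a| :=
              mul_le_mul_of_nonneg_right h3 (abs_nonneg _)
          _ = _ := by ring
      have h4 : |q| ≤ 2 * τ * ∑ a, (‖G a c‖ * |(S *ᵥ x) a|) * ‖be G f a c‖ := by
        rw [Finset.mul_sum]
        exact h1.trans (Finset.sum_le_sum fun a _ => h2 a)
      have h5 : (∑ a, (‖G a c‖ * |(S *ᵥ x) a|) * ‖be G f a c‖) ^ 2 ≤ (s * q * (2 / τ)) * B := by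
        refine (Finset.sum_mul_sq_le_sq_mul_sq _ _ _).trans ?_
        refine mul_le_mul_of_nonneg_right ?_ hB0
        have h6 : ∀ a, (‖G a c‖ * |(S *ᵥ x) a|) ^ 2 ≤ s * q * KK G c a := by
          intro a
          have h7 : (‖G a c‖ * |(S *ᵥ x) a|) ^ 2 = (S *ᵥ x) a ^ 2 * KK G c a := by
            unfold KK
            rw [mul_pow, sq_abs, hs a c]; ring
          rw [h7]
          exact mul_le_mul_of_nonneg_right (hh a) (hK0 _ _)
        refine (Finset.sum_le_sum fun a _ => h6 a).trans ?_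
        rw [← Finset.mul_sum]
        exact mul_le_mul_of_nonneg_left (hk2 c) (le_trans (sq_nonneg _) (hh c))
      have h8 : q ^ 2 ≤ 8 * τ * s * B * q := by
        have h9 : |q| ^ 2 ≤ (2 * τ * ∑ a, (‖G a c‖ * |(S *ᵥ x) a|) * ‖be G f a c‖) ^ 2 :=
          pow_le_pow_left₀ (abs_nonneg _) h4 2
        rw [sq_abs, mul_pow] at h9
        have h10 : (2 * τ) ^ 2 * (∑ a, (‖G a c‖ * |(S *ᵥ x) a|) * ‖be G f a c‖) ^ 2 ≤
            (2 * τ) ^ 2 * ((s * q * (2 / τ)) * B) :=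
          mul_le_mul_of_nonneg_left h5 (by positivity)
        have h11 : (2 * τ) ^ 2 * ((s * q * (2 / τ)) * B) = 8 * τ * s * B * q := by
          field_simp
          ring
        linarith
      rcases hq0.eq_or_lt with h | h
      · rw [← h]
        have hs1 := hs0 c
        positivity
      · nlinarith
    rcases isEmpty_or_nonempty X with hX | ⟨⟨c₀⟩⟩
    · have hq : qf (τ • Dl (KK G)) f = 0 := by
        unfold qf
        exact Finset.sum_of_isEmpty _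
      rw [hq, mul_zero, Finset.sum_of_isEmpty]
    have hs1 := hs0 c₀
    have e2 : ∑ c, qf S ((τ • Dl (dK G c)) *ᵥ f) ≤ 8 * τ * s * (D / κ ^ 2) := by
      refine (Finset.sum_le_sum fun c _ => e1 c).trans ?_
      rw [← Finset.mul_sum, Finset.sum_comm]
      refine mul_le_mul_of_nonneg_left ?_ (by positivity)
      rw [hD, Finset.sum_div]
      exact Finset.sum_le_sum fun a _ => hbr a
    refine e2.trans ?_
    rw [hqt, hDQ]
    have e3 : 8 * τ * s * (2 * Q / κ ^ 2) = 16 * (s / κ ^ 2 * (τ * Q)) := by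
      field_simp
      ring
    have e4 : 16 * C₀ ^ 3 * s / κ ^ 2 * (τ * Q) = C₀ ^ 3 * (16 * (s / κ ^ 2 * (τ * Q))) := by
      field_simp
    rw [e3, e4]
    have e5 : 0 ≤ 16 * (s / κ ^ 2 * (τ * Q)) := by positivity
    have e6 : 1 ≤ C₀ ^ 3 := one_le_pow₀ hC₀
    exact le_mul_of_one_le_left e5 e6

end Pool.Agent.LE.QF.H62
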